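import Mathlib
import Pool.Agent.S12801

set_option autoImplicit false

open Metric
open scoped Manifold ContDiff

namespace Pool.Agent.Results.MP_15cd64_gt.NoncongruentSurfaces

/-- Euclidean three-space. -/
abbrev E : Type := EuclideanSpace ℝ (Fin 3)

/-- The great circle `t ↦ cos t • u + sin t • v`: for orthonormal `u, v` it is the geodesic of the
unit sphere which starts at `u` with the unit velocity `v`. -/
noncomputable def arc (u v : E) (t : ℝ) : E := Real.cos t • u + Real.sin t • v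

/-- First derivative at `u` of a function `h` on the unit sphere in the unit tangent direction `v`. -/
noncomputable def D1 (h : E → ℝ) (u v : E) : ℝ := deriv (fun t => h (arc u v t)) 0

/-- The spherical Hessian `(∇²h)(v, v)` at `u`: the second derivative of `h` along the geodesic. -/
noncomputable def D2 (h : E → ℝ) (u v : E) : ℝ := deriv (deriv (fun t => h (arc u v t))) 0

/-- The spherical Hessian `(∇²h)(v, w)` at `u` for orthonormal tangent vectors `v, w`, by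
polarisation: `((∇²h)(a, a) - (∇²h)(b, b)) / 2` with `a = (v + w) / √2`, `b = (v - w) / √2`. -/
noncomputable def D2m (h : E → ℝ) (u v w : E) : ℝ :=
  (D2 h u ((√2)⁻¹ • (v + w)) - D2 h u ((√2)⁻¹ • (v - w))) / 2

/-- The curvature function `R_h = det (∇²h + h Id)` at `u`, computed in the orthonormal frame
`v, w` of the tangent plane of the unit sphere at `u`. -/
noncomputable def R (h : E → ℝ) (u v w : E) : ℝ :=
  Matrix.det !![D2 h u v + h u, D2m h u v w; D2m h u v w, D2 h u w + h u]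

/-- The hedgehog with support function `h`: the set of all points `x_h(u) = h(u) u + (∇h)(u)`,
`u` in the unit sphere; the gradient is computed in an orthonormal frame `v, w` of the tangent
plane at `u`. -/
def hedgehog (h : E → ℝ) : Set E :=
  {x | ∃ u v w : E, Orthonormal ℝ ![u, v, w] ∧ x = h u • u + (D1 h u v • v + D1 h u w • w)}

/-! ### Calculus along great circles -/

section calculus

variable {h : E → ℝ} {G : E → (E →L[ℝ] ℝ)} {K : E → (E →L[ℝ] (E →L[ℝ] ℝ))}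

lemma arc_zero (u v : E) : arc u v 0 = u := by simp [arc]

lemma hasDerivAt_arc (u v : E) (t : ℝ) :
    HasDerivAt (arc u v) (-Real.sin t • u + Real.cos t • v) t := by
  unfold arc
  exact ((Real.hasDerivAt_cos t).smul_const u).add ((Real.hasDerivAt_sin t).smul_const v)

lemma norm_sq_arc {u v : E} (hu : ‖u‖ = 1) (hv : ‖v‖ = 1) (huv : inner ℝ u v = 0) (t : ℝ) :
    ‖arc u v t‖ ^ 2 = 1 := by
  unfold arc
  rw [norm_add_sq_real, norm_smul, norm_smul, inner_smul_left, inner_smul_right, huv, hu, hv]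
  simp

lemma arc_ne_zero {u v : E} (hu : ‖u‖ = 1) (hv : ‖v‖ = 1) (huv : inner ℝ u v = 0) (t : ℝ) :
    arc u v t ≠ 0 := by
  intro h0
  have := norm_sq_arc hu hv huv t
  rw [h0] at this
  simp at this

lemma deriv_arc (hG : ∀ x : E, x ≠ 0 → HasFDerivAt h (G x) x) {u v : E} (hu : ‖u‖ = 1)
    (hv : ‖v‖ = 1) (huv : inner ℝ u v = 0) (t : ℝ) :
    HasDerivAt (fun t => h (arc u v t)) (G (arc u v t) (-Real.sin t • u + Real.cos t • v)) t :=
  (hG _ (arc_ne_zero hu hv huv t)).comp_hasDerivAt t (hasDerivAt_arc u v t)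

lemma D1_eq (hG : ∀ x : E, x ≠ 0 → HasFDerivAt h (G x) x) {u v : E} (hu : ‖u‖ = 1)
    (hv : ‖v‖ = 1) (huv : inner ℝ u v = 0) : D1 h u v = G u v := by
  unfold D1
  rw [(deriv_arc hG hu hv huv 0).deriv, arc_zero]
  simp

lemma D2_eq (hG : ∀ x : E, x ≠ 0 → HasFDerivAt h (G x) x)
    (hK : ∀ x : E, x ≠ 0 → HasFDerivAt G (K x) x) {u v : E} (hu : ‖u‖ = 1)
    (hv : ‖v‖ = 1) (huv : inner ℝ u v = 0) : D2 h u v = K u v v - G u u := by
  unfold D2
  have h1 : deriv (fun t => h (arc u v t))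
      = fun t => G (arc u v t) (-Real.sin t • u + Real.cos t • v) :=
    funext fun t => (deriv_arc hG hu hv huv t).deriv
  rw [h1]
  have h2 : HasDerivAt (fun t => G (arc u v t)) (K (arc u v 0) (-Real.sin 0 • u + Real.cos 0 • v)) 0 :=
    (hK _ (arc_ne_zero hu hv huv 0)).comp_hasDerivAt (0 : ℝ) (hasDerivAt_arc u v 0)
  have h3 : HasDerivAt (fun t => -Real.sin t • u + Real.cos t • v)
      (-Real.cos 0 • u + -Real.sin 0 • v) 0 :=
    ((Real.hasDerivAt_sin 0).neg.smul_const u).add ((Real.hasDerivAt_cos 0).smul_const v)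
  have h4 := h2.clm_apply h3
  rw [h4.deriv, arc_zero]
  simp
  ring

end calculus

/-! ### Orthonormal frames -/

section frames

/-- The orthogonal matrix with columns `u, v, w`. -/
def frameMatrix (u v w : E) : Matrix (Fin 3) (Fin 3) ℝ := Matrix.of fun i j => (![u, v, w] j) i

lemma frame_facts {u v w : E} (h : Orthonormal ℝ ![u, v, w]) :
    ‖u‖ = 1 ∧ ‖v‖ = 1 ∧ ‖w‖ = 1 ∧ inner ℝ u v = 0 ∧ inner ℝ u w = 0 ∧ inner ℝ v w = 0 := by
  refine ⟨h.1 0, h.1 1, h.1 2, ?_, ?_, ?_⟩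
  · exact h.2 (show (0 : Fin 3) ≠ 1 by decide)
  · exact h.2 (show (0 : Fin 3) ≠ 2 by decide)
  · exact h.2 (show (1 : Fin 3) ≠ 2 by decide)

lemma frame_mul {u v w : E} (h : Orthonormal ℝ ![u, v, w]) :
    (frameMatrix u v w).transpose * frameMatrix u v w = 1 := by
  ext i j
  rw [Matrix.mul_apply]
  have h1 := orthonormal_iff_ite.1 h i j
  rw [Matrix.one_apply, ← h1]
  simp only [frameMatrix, Matrix.transpose_apply, Matrix.of_apply]
  rw [PiLp.inner_apply]
  simp [mul_comm]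

lemma frame_mul' {u v w : E} (h : Orthonormal ℝ ![u, v, w]) :
    frameMatrix u v w * (frameMatrix u v w).transpose = 1 :=
  mul_eq_one_comm.1 (frame_mul h)

/-- The mixed discriminant of two symmetric forms which vanish on `u`, in the frame `v, w`. -/
lemma mixed_frame (A B : Matrix (Fin 3) (Fin 3) ℝ) (O : Matrix (Fin 3) (Fin 3) ℝ)
    (hO : O * O.transpose = 1)
    (hA : ∀ j, (O.transpose * A * O) 0 j = 0) (hA' : ∀ i, (O.transpose * A * O) i 0 = 0)
    (hB : ∀ j, (O.transpose * B * O) 0 j = 0) (hB' : ∀ i, (O.transpose * B * O) i 0 = 0) :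
    (O.transpose * A * O) 1 1 * (O.transpose * B * O) 2 2
      + (O.transpose * A * O) 2 2 * (O.transpose * B * O) 1 1
      - (O.transpose * A * O) 1 2 * (O.transpose * B * O) 2 1
      - (O.transpose * A * O) 2 1 * (O.transpose * B * O) 1 2
      = A.trace * B.trace - (A * B).trace := by
  have t1 : (O.transpose * A * O).trace = A.trace := by
    rw [Matrix.trace_mul_comm, ← Matrix.mul_assoc, hO, Matrix.one_mul]
  have t2 : (O.transpose * B * O).trace = B.trace := by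
    rw [Matrix.trace_mul_comm, ← Matrix.mul_assoc, hO, Matrix.one_mul]
  have t3 : ((O.transpose * A * O) * (O.transpose * B * O)).trace = (A * B).trace := by
    have : (O.transpose * A * O) * (O.transpose * B * O) = O.transpose * (A * B) * O := by
      calc (O.transpose * A * O) * (O.transpose * B * O)
          = O.transpose * A * (O * O.transpose) * B * O := by simp only [Matrix.mul_assoc]
        _ = O.transpose * (A * B) * O := by rw [hO]; simp only [Matrix.mul_assoc, Matrix.one_mul]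
    rw [this, Matrix.trace_mul_comm, ← Matrix.mul_assoc, hO, Matrix.one_mul]
  rw [← t1, ← t2, ← t3]
  simp only [Matrix.trace, Matrix.diag_apply, Fin.sum_univ_three,
    Matrix.mul_apply (M := O.transpose * A * O)]
  simp only [hA, hA', hB, hB']
  ring

end frames

/-! ### Bilinear forms in a frame -/

section forms

/-- The matrix of a bilinear form. -/
noncomputable def mat (K : E →L[ℝ] (E →L[ℝ] ℝ)) : Matrix (Fin 3) (Fin 3) ℝ :=
  Matrix.of fun i j => K (EuclideanSpace.single i 1) (EuclideanSpace.single j 1)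

lemma vec_expand (a : E) : a = ∑ i, a i • EuclideanSpace.single i (1 : ℝ) := by
  ext j
  fin_cases j <;> simp [Fin.sum_univ_three]

lemma bilin_expand (K : E →L[ℝ] (E →L[ℝ] ℝ)) (a b : E) :
    K a b = ∑ j, (∑ i, a i * mat K i j) * b j := by
  conv_lhs => rw [vec_expand a, vec_expand b]
  simp [mat, Fin.sum_univ_three]
  ring

lemma frame_apply (K : E →L[ℝ] (E →L[ℝ] ℝ)) (u v w : E) (i j : Fin 3) :
    ((frameMatrix u v w).transpose * mat K * frameMatrix u v w) i j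
      = K (![u, v, w] i) (![u, v, w] j) := by
  rw [bilin_expand, Matrix.mul_apply]
  refine Finset.sum_congr rfl fun k _ => ?_
  rw [Matrix.mul_apply]
  rfl

/-- A function whose gradient and Hessian are given off the origin, and which satisfies the
Euler relations. -/
structure Data (h : E → ℝ) (G : E → (E →L[ℝ] ℝ)) (K : E → (E →L[ℝ] (E →L[ℝ] ℝ))) : Prop where
  hG : ∀ x : E, x ≠ 0 → HasFDerivAt h (G x) x
  hK : ∀ x : E, x ≠ 0 → HasFDerivAt G (K x) x
  euler : ∀ x : E, x ≠ 0 → G x x = h x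

lemma Data.R_eq {h : E → ℝ} {G : E → (E →L[ℝ] ℝ)} {K : E → (E →L[ℝ] (E →L[ℝ] ℝ))}
    (d : Data h G K) {u v w : E} (ho : Orthonormal ℝ ![u, v, w]) :
    R h u v w = K u v v * K u w w - ((K u v w + K u w v) / 2) ^ 2 := by
  obtain ⟨hu, hv, hw, huv, huw, hvw⟩ := frame_facts ho
  have hu0 : u ≠ 0 := by
    intro h0; rw [h0] at hu; simp at hu
  have s2 : (√2 : ℝ)⁻¹ * (√2)⁻¹ = 1 / 2 := by
    rw [← mul_inv, Real.mul_self_sqrt (by norm_num)]; norm_num
  have hwv : inner ℝ w v = 0 := by rw [real_inner_comm]; exact hvw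
  have ha : ‖(√2 : ℝ)⁻¹ • (v + w)‖ = 1 := by
    have : ‖(√2 : ℝ)⁻¹ • (v + w)‖ ^ 2 = 1 := by
      rw [← real_inner_self_eq_norm_sq, inner_smul_left, inner_smul_right, inner_add_left,
        inner_add_right, inner_add_right, real_inner_self_eq_norm_sq, real_inner_self_eq_norm_sq,
        hv, hw, hvw, hwv]
      simp only [conj_trivial]
      rw [← mul_assoc, s2]; norm_num
    exact (pow_eq_one_iff_of_nonneg (norm_nonneg _) two_ne_zero).1 this
  have hb : ‖(√2 : ℝ)⁻¹ • (v - w)‖ = 1 := by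
    have : ‖(√2 : ℝ)⁻¹ • (v - w)‖ ^ 2 = 1 := by
      rw [← real_inner_self_eq_norm_sq, inner_smul_left, inner_smul_right, inner_sub_left,
        inner_sub_right, inner_sub_right, real_inner_self_eq_norm_sq, real_inner_self_eq_norm_sq,
        hv, hw, hvw, hwv]
      simp only [conj_trivial]
      rw [← mul_assoc, s2]; norm_num
    exact (pow_eq_one_iff_of_nonneg (norm_nonneg _) two_ne_zero).1 this
  have hua : inner ℝ u ((√2 : ℝ)⁻¹ • (v + w)) = 0 := by
    rw [inner_smul_right, inner_add_right, huv, huw]; simp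
  have hub : inner ℝ u ((√2 : ℝ)⁻¹ • (v - w)) = 0 := by
    rw [inner_smul_right, inner_sub_right, huv, huw]; simp
  have hD : D2m h u v w = (K u v w + K u w v) / 2 := by
    unfold D2m
    rw [D2_eq d.hG d.hK hu ha hua, D2_eq d.hG d.hK hu hb hub]
    simp
    linear_combination 2 * (K u v w + K u w v) * s2
  unfold R
  rw [Matrix.det_fin_two_of, hD, D2_eq d.hG d.hK hu hv huv, D2_eq d.hG d.hK hu hw huw,
    d.euler u hu0]
  ring

/-- The point `x_h(u)` is the gradient at `u` of the extension. -/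
lemma Data.point_eq {h : E → ℝ} {G : E → (E →L[ℝ] ℝ)} {K : E → (E →L[ℝ] (E →L[ℝ] ℝ))}
    (d : Data h G K) {u v w : E} (ho : Orthonormal ℝ ![u, v, w]) (i : Fin 3) :
    (h u • u + (D1 h u v • v + D1 h u w • w)) i = G u (EuclideanSpace.single i 1) := by
  obtain ⟨hu, hv, hw, huv, huw, hvw⟩ := frame_facts ho
  have hu0 : u ≠ 0 := by
    intro h0; rw [h0] at hu; simp at hu
  rw [D1_eq d.hG hu hv huv, D1_eq d.hG hu hw huw, ← d.euler u hu0]
  have key : ∀ k, ∑ j, frameMatrix u v w i j * frameMatrix u v w k j = (1 : Matrix (Fin 3) (Fin 3) ℝ) i k := by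
    intro k
    rw [← frame_mul' ho, Matrix.mul_apply]
    rfl
  have hexp : ∀ a : E, G u a = ∑ k, a k * G u (EuclideanSpace.single k 1) := by
    intro a
    conv_lhs => rw [vec_expand a]
    simp only [map_sum, map_smul, smul_eq_mul]
  have k0 := key 0
  have k1 := key 1
  have k2 := key 2
  simp only [Fin.sum_univ_three, frameMatrix, Matrix.of_apply, Matrix.cons_val_zero,
    Matrix.cons_val_one, Matrix.cons_val] at k0 k1 k2
  have hgoal : (G u u • u + (G u v • v + G u w • w)) i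
      = G u u * u i + (G u v * v i + G u w * w i) := by simp
  rw [hgoal, hexp u, hexp v, hexp w]
  simp only [Fin.sum_univ_three]
  have hs : ∀ k : Fin 3, (EuclideanSpace.single i (1 : ℝ) : E) k
      = (1 : Matrix (Fin 3) (Fin 3) ℝ) i k := by
    intro k
    rw [Matrix.one_apply, PiLp.single_apply]
    simp only [eq_comm]
  have hlast : G u (EuclideanSpace.single i 1)
      = (1 : Matrix (Fin 3) (Fin 3) ℝ) i 0 * G u (EuclideanSpace.single 0 1)
      + (1 : Matrix (Fin 3) (Fin 3) ℝ) i 1 * G u (EuclideanSpace.single 1 1)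
      + (1 : Matrix (Fin 3) (Fin 3) ℝ) i 2 * G u (EuclideanSpace.single 2 1) := by
    rw [hexp (EuclideanSpace.single i 1), Fin.sum_univ_three, hs, hs, hs]
  rw [hlast, ← k0, ← k1, ← k2]
  ring

end forms

/-! ### The two functions -/

section pair

open Pool.Agent.S12801

lemma Gp_apply (x v : E) : Gp x v = p0 x * v 0 + p1 x * v 1 + p2 x * v 2 := by
  simp [Gp]

lemma Gq_apply (x v : E) : Gq x v = q0 x * v 0 + q1 x * v 1 + q2 x * v 2 := by
  simp [Gq]

lemma Hp_apply (x v w : E) : Hp x v w = (p00 x * v 0 + p01 x * v 1 + p02 x * v 2) * w 0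
    + (p01 x * v 0 + p11 x * v 1 + p12 x * v 2) * w 1
    + (p02 x * v 0 + p12 x * v 1 + p22 x * v 2) * w 2 := by
  simp [Hp]

lemma Hq_apply (x v w : E) : Hq x v w = (q00 x * v 0 + q01 x * v 1 + q02 x * v 2) * w 0
    + (q01 x * v 0 + q11 x * v 1 + q12 x * v 2) * w 1
    + (q02 x * v 0 + q12 x * v 1 + q22 x * v 2) * w 2 := by
  simp [Hq]

lemma Hp_symm (x v w : E) : Hp x v w = Hp x w v := by
  rw [Hp_apply, Hp_apply]; ring

lemma Hq_symm (x v w : E) : Hq x v w = Hq x w v := by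
  rw [Hq_apply, Hq_apply]; ring

lemma euler_q {x : E} (hx : x ≠ 0) : Gq x x = q x := by
  have h' := (N_pos hx).ne'
  have hN := N_sq x
  have e1 : x 0 ^ 2 = N x ^ 2 - 4 * x 1 ^ 2 - 3 * x 2 ^ 2 := by linarith
  have e2 : a x = x 0 ^ 2 - 4 * x 1 ^ 2 := rfl
  rw [Gq_apply]
  unfold q0 q1 q2 q
  have : (2 * x 0 / N x - a x * x 0 / N x ^ 3) * x 0
      + (-8 * x 1 / N x - 4 * a x * x 1 / N x ^ 3) * x 1 + (- 3 * a x * x 2 / N x ^ 3) * x 2
      = 2 * (x 0 ^ 2 - 4 * x 1 ^ 2) / N x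
        - a x * (x 0 ^ 2 + 4 * x 1 ^ 2 + 3 * x 2 ^ 2) / N x ^ 3 := by ring
  rw [this, ← hN, ← e2]
  field_simp
  ring

lemma euler_p {x : E} (hx : x ≠ 0) : Gp x x = p x := by
  have h' := (N_pos hx).ne'
  have h2' := (T_pos hx).ne'
  have hN := N_sq x
  have hT : T x = N x ^ 2 - x 2 ^ 2 := by unfold T; ring
  rw [Gp_apply]
  unfold p0 p1 p2 p
  have : (2 * x 0 * N x ^ 3 / T x ^ 2) * x 0 + (8 * x 1 * N x ^ 3 / T x ^ 2) * x 1
      + (x 2 * N x * (N x ^ 2 + 3 * x 2 ^ 2) / T x ^ 2 - 3 / 2 * L x) * x 2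
      = 2 * N x ^ 3 * ((x 0 ^ 2 + 4 * x 1 ^ 2 + 3 * x 2 ^ 2) - 3 * x 2 ^ 2) / T x ^ 2
        + x 2 ^ 2 * N x * (N x ^ 2 + 3 * x 2 ^ 2) / T x ^ 2 - 3 / 2 * (x 2 * L x) := by ring
  rw [this, ← hN]
  have h3 : N x ^ 2 - x 2 ^ 2 ≠ 0 := hT ▸ h2'
  rw [hT]
  field_simp
  ring

lemma Hq_self {x : E} (hx : x ≠ 0) (v : E) : Hq x x v = 0 := by
  have h' := (N_pos hx).ne'
  have hN := N_sq x
  have e1 : x 0 ^ 2 = N x ^ 2 - 4 * x 1 ^ 2 - 3 * x 2 ^ 2 := by linarith
  have e2 : a x = N x ^ 2 - 8 * x 1 ^ 2 - 3 * x 2 ^ 2 := by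
    change x 0 ^ 2 - 4 * x 1 ^ 2 = _
    linarith
  have c0 : q00 x * x 0 + q01 x * x 1 + q02 x * x 2 = 0 := by
    have : q00 x * x 0 + q01 x * x 1 + q02 x * x 2
        = x 0 * (2 / N x - 4 * x 0 ^ 2 / N x ^ 3 + 3 * a x * x 0 ^ 2 / N x ^ 5 - a x / N x ^ 3
          + 12 * a x * x 1 ^ 2 / N x ^ 5 - 6 * x 2 ^ 2 / N x ^ 3
          + 9 * a x * x 2 ^ 2 / N x ^ 5) := by
      unfold q00 q01 q02; ring
    rw [this, e1, e2]
    field_simp
    ring
  have c1 : q01 x * x 0 + q11 x * x 1 + q12 x * x 2 = 0 := by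
    have : q01 x * x 0 + q11 x * x 1 + q12 x * x 2
        = x 1 * (12 * a x * x 0 ^ 2 / N x ^ 5 - 8 / N x + 64 * x 1 ^ 2 / N x ^ 3
          + 48 * a x * x 1 ^ 2 / N x ^ 5 - 4 * a x / N x ^ 3 + 24 * x 2 ^ 2 / N x ^ 3
          + 36 * a x * x 2 ^ 2 / N x ^ 5) := by
      unfold q01 q11 q12; ring
    rw [this, e1, e2]
    field_simp
    ring
  have c2 : q02 x * x 0 + q12 x * x 1 + q22 x * x 2 = 0 := by
    have : q02 x * x 0 + q12 x * x 1 + q22 x * x 2
        = x 2 * (-6 * x 0 ^ 2 / N x ^ 3 + 9 * a x * x 0 ^ 2 / N x ^ 5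
          + 24 * x 1 ^ 2 / N x ^ 3 + 36 * a x * x 1 ^ 2 / N x ^ 5
          + 27 * a x * x 2 ^ 2 / N x ^ 5 - 3 * a x / N x ^ 3) := by
      unfold q02 q12 q22; ring
    rw [this, e1, e2]
    field_simp
    ring
  rw [Hq_apply, c0, c1, c2]; ring

lemma Hp_self {x : E} (hx : x ≠ 0) (v : E) : Hp x x v = 0 := by
  have h' := (N_pos hx).ne'
  have h2' := (T_pos hx).ne'
  have hN := N_sq x
  have hT : T x = N x ^ 2 - x 2 ^ 2 := by unfold T; ring
  have h3 : N x ^ 2 - x 2 ^ 2 ≠ 0 := hT ▸ h2'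
  have e1 : x 0 ^ 2 = N x ^ 2 - 4 * x 1 ^ 2 - 3 * x 2 ^ 2 := by linarith
  have c0 : p00 x * x 0 + p01 x * x 1 + p02 x * x 2 = 0 := by
    have : p00 x * x 0 + p01 x * x 1 + p02 x * x 2
        = x 0 * (2 * N x ^ 3 / T x ^ 2 - 2 * N x * x 0 ^ 2 / T x ^ 2
          - 8 * N x * x 2 ^ 2 * x 0 ^ 2 / T x ^ 3
          - 8 * N x * x 1 ^ 2 / T x ^ 2 - 32 * N x * x 2 ^ 2 * x 1 ^ 2 / T x ^ 3
          - 6 * N x * x 2 ^ 2 / T x ^ 2
          - 8 * N x * x 2 ^ 2 * (3 * x 2 ^ 2 - N x ^ 2) / T x ^ 3) := by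
      unfold p00 p01 p02; ring
    rw [this, e1, hT]
    field_simp
    ring
  have c1 : p01 x * x 0 + p11 x * x 1 + p12 x * x 2 = 0 := by
    have : p01 x * x 0 + p11 x * x 1 + p12 x * x 2
        = x 1 * (-8 * N x * x 0 ^ 2 / T x ^ 2 - 32 * N x * x 2 ^ 2 * x 0 ^ 2 / T x ^ 3
          + 8 * N x ^ 3 / T x ^ 2 - 32 * N x * x 1 ^ 2 / T x ^ 2
          - 128 * N x * x 2 ^ 2 * x 1 ^ 2 / T x ^ 3
          - 24 * N x * x 2 ^ 2 / T x ^ 2
          - 32 * N x * x 2 ^ 2 * (3 * x 2 ^ 2 - N x ^ 2) / T x ^ 3) := by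
      unfold p01 p11 p12; ring
    rw [this, e1, hT]
    field_simp
    ring
  have c2 : p02 x * x 0 + p12 x * x 1 + p22 x * x 2 = 0 := by
    have : p02 x * x 0 + p12 x * x 1 + p22 x * x 2
        = x 2 * (-6 * N x * x 0 ^ 2 / T x ^ 2
          - 8 * N x * x 0 ^ 2 * (3 * x 2 ^ 2 - N x ^ 2) / T x ^ 3
          - 24 * N x * x 1 ^ 2 / T x ^ 2
          - 32 * N x * x 1 ^ 2 * (3 * x 2 ^ 2 - N x ^ 2) / T x ^ 3
          + 6 * N x ^ 3 / T x ^ 2 - 18 * N x * x 2 ^ 2 / T x ^ 2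
          - 8 * N x * (3 * x 2 ^ 2 - N x ^ 2) ^ 2 / T x ^ 3) := by
      unfold p02 p12 p22; ring
    rw [this, e1, hT]
    field_simp
    ring
  rw [Hp_apply, c0, c1, c2]; ring

lemma data_add : Data (fun x => p x + q x) (fun x => Gp x + Gq x) (fun x => Hp x + Hq x) where
  hG x hx := (hp' hx).add (hq' hx)
  hK x hx := (hGp hx).add (hGq hx)
  euler x hx := by
    show Gp x x + Gq x x = p x + q x
    rw [euler_p hx, euler_q hx]

lemma data_sub : Data (fun x => p x - q x) (fun x => Gp x - Gq x) (fun x => Hp x - Hq x) where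
  hG x hx := (hp' hx).sub (hq' hx)
  hK x hx := (hGp hx).sub (hGq hx)
  euler x hx := by
    show Gp x x - Gq x x = p x - q x
    rw [euler_p hx, euler_q hx]

lemma mixed_zero {u v w : E} (ho : Orthonormal ℝ ![u, v, w]) :
    Hp u v v * Hq u w w + Hp u w w * Hq u v v - 2 * (Hp u v w * Hq u v w) = 0 := by
  obtain ⟨hu, hv, hw, huv, huw, hvw⟩ := frame_facts ho
  have hu0 : u ≠ 0 := by
    intro h0; rw [h0] at hu; simp at hu
  have h := mixed_frame (mat (Hp u)) (mat (Hq u)) (frameMatrix u v w) (frame_mul' ho)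
    (fun j => by rw [frame_apply]; exact Hp_self hu0 _)
    (fun j => by rw [frame_apply, Hp_symm]; exact Hp_self hu0 _)
    (fun j => by rw [frame_apply]; exact Hq_self hu0 _)
    (fun j => by rw [frame_apply, Hq_symm]; exact Hq_self hu0 _)
  simp only [frame_apply] at h
  have hm := mixed' hu0
  have ht : (mat (Hp u)).trace * (mat (Hq u)).trace - (mat (Hp u) * mat (Hq u)).trace = 0 := by
    simp only [Matrix.trace, Matrix.diag_apply, Fin.sum_univ_three, Matrix.mul_apply, mat,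
      Matrix.of_apply, Hp_apply, Hq_apply]
    simp
    linear_combination hm
  rw [ht] at h
  have h2 : Hp u v v * Hq u w w + Hp u w w * Hq u v v - Hp u v w * Hq u w v
      - Hp u w v * Hq u v w = 0 := h
  rw [Hp_symm u w v, Hq_symm u w v] at h2
  linear_combination h2

lemma R_eq_R {u v w : E} (ho : Orthonormal ℝ ![u, v, w]) :
    R (fun x => p x + q x) u v w = R (fun x => p x - q x) u v w := by
  rw [data_add.R_eq ho, data_sub.R_eq ho]
  have h := mixed_zero ho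
  have e1 : ∀ a b : E, (Hp u + Hq u) a b = Hp u a b + Hq u a b := fun a b => rfl
  have e2 : ∀ a b : E, (Hp u - Hq u) a b = Hp u a b - Hq u a b := fun a b => rfl
  rw [e1, e1, e1, e1, e2, e2, e2, e2, Hp_symm u w v, Hq_symm u w v]
  linear_combination 2 * h

/-! ### The size of the two hedgehogs -/

lemma bound_poly (ξ η s : ℝ) (hξ : 0 ≤ ξ) (hη : 0 ≤ η) (hs : 0 ≤ s) (h : ξ + η + 3 * s = 1) :
    ξ * (5 + 9 / 2 * s - 2 * ξ) ^ 2 + 4 * η * (1 + 9 / 2 * s) ^ 2 + 64 * s ≤ 121 / 4 := by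
  have hξ1 : ξ ≤ 1 := by linarith
  have hη1 : η ≤ 1 := by linarith
  have hs1 : s = (1 - ξ - η) / 3 := by linarith
  have a1 : ξ * (5 + 9 / 2 * s - 2 * ξ) ^ 2 ≤ ξ * (13 / 2 - 7 / 2 * ξ) ^ 2 := by
    apply mul_le_mul_of_nonneg_left _ hξ
    apply pow_le_pow_left₀ <;> linarith
  have a2 : 4 * η * (1 + 9 / 2 * s) ^ 2 ≤ 4 * η * (5 / 2 - 3 / 2 * η) ^ 2 := by
    apply mul_le_mul_of_nonneg_left _ (by linarith)
    apply pow_le_pow_left₀ <;> linarith
  have b1 : ξ * (13 / 2 - 7 / 2 * ξ) ^ 2 ≤ 64 / 3 * ξ + 4 := by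
    nlinarith [sq_nonneg (ξ - 3 / 10), mul_nonneg (mul_nonneg hξ hξ) (sub_nonneg.2 hξ1)]
  have b2 : 4 * η * (5 / 2 - 3 / 2 * η) ^ 2 ≤ 64 / 3 * η + 4 := by
    nlinarith [sq_nonneg (η - 1 / 10), mul_nonneg (mul_nonneg hη hη) (sub_nonneg.2 hη1)]
  linarith

lemma t3_aux (Z B d l : ℝ) (hd2 : d ≤ 1 + 3 / 2 * Z ^ 2) (hBu : B ≤ 9 / 2)
    (hBl : -2 + 9 * Z ^ 2 ≤ B) (hl : |l| ≤ 4 * |Z| * d) (hl0 : 0 ≤ Z * l) :
    (Z * B - 3 / 2 * l) ^ 2 ≤ (8 * |Z|) ^ 2 := by
  rcases le_total 0 Z with hz | hz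
  · rw [abs_of_nonneg hz] at hl ⊢
    have hl1 : 0 ≤ l := by
      rcases hz.eq_or_lt with hz0 | hz0
      · rw [← hz0] at hl
        have h5 : |l| = 0 := le_antisymm (by linarith) (abs_nonneg l)
        exact (abs_eq_zero.1 h5).ge
      · exact nonneg_of_mul_nonneg_right hl0 hz0
    rw [abs_of_nonneg hl1] at hl
    have hzd : Z * d ≤ Z * (1 + 3 / 2 * Z ^ 2) := mul_le_mul_of_nonneg_left hd2 hz
    have hzB : Z * B ≤ Z * (9 / 2) := mul_le_mul_of_nonneg_left hBu hz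
    have hzB' : Z * (-2 + 9 * Z ^ 2) ≤ Z * B := mul_le_mul_of_nonneg_left hBl hz
    apply sq_le_sq'
    · linarith
    · linarith
  · rw [abs_of_nonpos hz] at hl ⊢
    have hz' : 0 ≤ -Z := by linarith
    have hl1 : l ≤ 0 := by
      rcases hz'.eq_or_lt with hz0 | hz0
      · rw [← hz0] at hl
        have h5 : |l| = 0 := le_antisymm (by linarith) (abs_nonneg l)
        exact (abs_eq_zero.1 h5).le
      · have hl2 : 0 ≤ (-Z) * (-l) := by linarith
        have := nonneg_of_mul_nonneg_right hl2 hz0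
        linarith
    rw [abs_of_nonpos hl1] at hl
    have hzd : (-Z) * d ≤ (-Z) * (1 + 3 / 2 * Z ^ 2) := mul_le_mul_of_nonneg_left hd2 hz'
    have hzB : (-Z) * B ≤ (-Z) * (9 / 2) := mul_le_mul_of_nonneg_left hBu hz'
    have hzB' : (-Z) * (-2 + 9 * Z ^ 2) ≤ (-Z) * B := mul_le_mul_of_nonneg_left hBl hz'
    apply sq_le_sq'
    · linarith
    · linarith

lemma bound_real (X Y Z d l : ℝ) (h1 : X ^ 2 + 4 * Y ^ 2 + 3 * Z ^ 2 = 1)
    (h2 : d * (1 - Z ^ 2) = 1) (hl : |l| ≤ 4 * |Z| * d) (hl0 : 0 ≤ Z * l) :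
    (X * (2 * d ^ 2 + 2 - (X ^ 2 - 4 * Y ^ 2))) ^ 2
      + (4 * Y * (2 * d ^ 2 - 2 - (X ^ 2 - 4 * Y ^ 2))) ^ 2
      + (Z * ((1 + 3 * Z ^ 2) * d ^ 2 - 3 * (X ^ 2 - 4 * Y ^ 2)) - 3 / 2 * l) ^ 2 ≤ 121 / 4 := by
  have hX := sq_nonneg X
  have hY := sq_nonneg Y
  have hZ := sq_nonneg Z
  have hs : Z ^ 2 ≤ 1 / 3 := by linarith
  have hd0 : 0 < d := by
    by_contra hcon
    push Not at hcon
    nlinarith
  have hd1 : 1 ≤ d := by nlinarith
  have hd2 : d ≤ 1 + 3 / 2 * Z ^ 2 := by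
    have h3 : 0 ≤ (1 + 3 / 2 * Z ^ 2) * (1 - Z ^ 2) - 1 := by nlinarith
    have h4 : 0 ≤ (1 + 3 / 2 * Z ^ 2 - d) * (1 - Z ^ 2) := by nlinarith
    by_contra hcon
    push Not at hcon
    nlinarith
  have hd3 : d ^ 2 ≤ 1 + 15 / 4 * Z ^ 2 := by
    have : d ^ 2 ≤ (1 + 3 / 2 * Z ^ 2) ^ 2 := pow_le_pow_left₀ hd0.le hd2 2
    nlinarith
  have hd4 : 1 ≤ d ^ 2 := by nlinarith
  set A := X ^ 2 - 4 * Y ^ 2 with hA
  have t1 : (X * (2 * d ^ 2 + 2 - A)) ^ 2 ≤ X ^ 2 * (5 + 9 / 2 * Z ^ 2 - 2 * X ^ 2) ^ 2 := by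
    rw [mul_pow]
    apply mul_le_mul_of_nonneg_left _ hX
    apply pow_le_pow_left₀ <;> linarith
  have t2 : (4 * Y * (2 * d ^ 2 - 2 - A)) ^ 2 ≤ 4 * (4 * Y ^ 2) * (1 + 9 / 2 * Z ^ 2) ^ 2 := by
    have : (4 * Y * (2 * d ^ 2 - 2 - A)) ^ 2 = 4 * (4 * Y ^ 2) * (2 * d ^ 2 - 2 - A) ^ 2 := by ring
    rw [this]
    apply mul_le_mul_of_nonneg_left _ (by linarith)
    apply sq_le_sq'
    · linarith
    · linarith
  have hB1 : (1 + 3 * Z ^ 2) * d ^ 2 ≤ 1 + 21 / 2 * Z ^ 2 := by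
    have : (1 + 3 * Z ^ 2) * d ^ 2 ≤ (1 + 3 * Z ^ 2) * (1 + 15 / 4 * Z ^ 2) :=
      mul_le_mul_of_nonneg_left hd3 (by linarith)
    nlinarith
  have hB2 : 1 ≤ (1 + 3 * Z ^ 2) * d ^ 2 := by nlinarith
  have t3 : (Z * ((1 + 3 * Z ^ 2) * d ^ 2 - 3 * A) - 3 / 2 * l) ^ 2 ≤ 64 * Z ^ 2 := by
    set B := (1 + 3 * Z ^ 2) * d ^ 2 - 3 * A with hB
    have hBu : B ≤ 9 / 2 := by linarith
    have hBl : -2 + 9 * Z ^ 2 ≤ B := by linarith
    have h8 : (64 : ℝ) * Z ^ 2 = (8 * |Z|) ^ 2 := by rw [mul_pow, sq_abs]; norm_num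
    rw [h8]
    exact t3_aux Z B d l hd2 hBu hBl hl hl0
  have hp := bound_poly (X ^ 2) (4 * Y ^ 2) (Z ^ 2) hX (by linarith) hZ h1
  linarith

lemma L_abs_le {x : E} (hx : x ≠ 0) : |L x| ≤ 4 * |x 2| * N x / T x := by
  have key : ∀ y : E, y ≠ 0 → 0 ≤ y 2 → |L y| ≤ 4 * |y 2| * N y / T y := by
    intro y hy h
    have h1 := Nadd_pos hy
    have h2 := Nsub_pos hy
    have hN := N_pos hy
    have hT := T_pos hy
    have hTe : T y = (N y + y 2) * (N y - y 2) := by unfold T; ring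
    have hl0 : 0 ≤ L y := by
      unfold L
      have := Real.log_le_log h2 (show N y - y 2 ≤ N y + y 2 by linarith)
      linarith
    rw [abs_of_nonneg hl0, abs_of_nonneg h]
    have hl := Real.log_le_sub_one_of_pos (div_pos h1 h2)
    rw [Real.log_div h1.ne' h2.ne'] at hl
    have e : (N y + y 2) / (N y - y 2) - 1 = 2 * y 2 / (N y - y 2) := by
      field_simp; ring
    rw [e] at hl
    calc L y ≤ 2 * y 2 / (N y - y 2) := hl
      _ = 2 * y 2 * (N y + y 2) / T y := by rw [hTe]; field_simp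
      _ ≤ 4 * y 2 * N y / T y := by
          apply div_le_div_of_nonneg_right _ hT.le
          nlinarith
  rcases le_total 0 (x 2) with h | h
  · exact key x hx h
  · have h3 := key (-x) (neg_ne_zero.2 hx) (by simpa using h)
    rw [L_neg, N_neg, T_neg, abs_neg] at h3
    simpa using h3

/-- The gradient of `p + q` has norm at most `11 / 2` everywhere. -/
lemma grad_le {x : E} (hx : x ≠ 0) :
    (p0 x + q0 x) ^ 2 + (p1 x + q1 x) ^ 2 + (p2 x + q2 x) ^ 2 ≤ 121 / 4 := by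
  have hN := N_pos hx
  have hT := T_pos hx
  have hN' := hN.ne'
  have hT' := hT.ne'
  have hNs := N_sq x
  have hTe : T x = N x ^ 2 - x 2 ^ 2 := by unfold T; ring
  have h1 : (x 0 / N x) ^ 2 + 4 * (x 1 / N x) ^ 2 + 3 * (x 2 / N x) ^ 2 = 1 := by
    field_simp
    linarith
  have h2 : N x ^ 2 / T x * (1 - (x 2 / N x) ^ 2) = 1 := by
    field_simp
    linarith
  have hl : |L x| ≤ 4 * |x 2 / N x| * (N x ^ 2 / T x) := by
    have h3 := L_abs_le hx
    have h4 : 4 * |x 2| * N x / T x = 4 * |x 2 / N x| * (N x ^ 2 / T x) := by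
      rw [abs_div, abs_of_pos hN]
      field_simp
    rwa [h4] at h3
  have hl0 : 0 ≤ x 2 / N x * L x := by
    have h3 := zL_nonneg hx
    have h4 : x 2 / N x * L x = x 2 * L x / N x := by ring
    rw [h4]
    positivity
  have hb := bound_real (x 0 / N x) (x 1 / N x) (x 2 / N x) (N x ^ 2 / T x) (L x) h1 h2 hl hl0
  have e0 : p0 x + q0 x = x 0 / N x * (2 * (N x ^ 2 / T x) ^ 2 + 2
      - ((x 0 / N x) ^ 2 - 4 * (x 1 / N x) ^ 2)) := by
    unfold p0 q0 a
    field_simp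
    ring
  have e1 : p1 x + q1 x = 4 * (x 1 / N x) * (2 * (N x ^ 2 / T x) ^ 2 - 2
      - ((x 0 / N x) ^ 2 - 4 * (x 1 / N x) ^ 2)) := by
    unfold p1 q1 a
    field_simp
    ring
  have e2 : p2 x + q2 x = x 2 / N x * ((1 + 3 * (x 2 / N x) ^ 2) * (N x ^ 2 / T x) ^ 2
      - 3 * ((x 0 / N x) ^ 2 - 4 * (x 1 / N x) ^ 2)) - 3 / 2 * L x := by
    unfold p2 q2 a
    field_simp
    ring
  rw [e0, e1, e2]
  exact hb

lemma norm_le_of_mem {x : E} (hx : x ∈ hedgehog (fun x => p x + q x)) : ‖x‖ ≤ 11 / 2 := by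
  obtain ⟨u, v, w, ho, rfl⟩ := hx
  obtain ⟨hu, hv, hw, huv, huw, hvw⟩ := frame_facts ho
  have hu0 : u ≠ 0 := by
    intro h0; rw [h0] at hu; simp at hu
  have h := grad_le hu0
  have c := data_add.point_eq ho
  set y := (fun x => p x + q x) u • u + (D1 (fun x => p x + q x) u v • v
    + D1 (fun x => p x + q x) u w • w) with hy
  have c0 := c 0
  have c1 := c 1
  have c2 := c 2
  have g0 : ∀ i : Fin 3, (Gp u + Gq u) (EuclideanSpace.single i 1)
      = Gp u (EuclideanSpace.single i 1) + Gq u (EuclideanSpace.single i 1) := fun i => rfl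
  rw [g0, Gp_apply, Gq_apply] at c0 c1 c2
  simp at c0 c1 c2
  have hn : ‖y‖ ^ 2 ≤ (11 / 2) ^ 2 := by
    rw [norm_sq_eq, c0, c1, c2]
    linarith
  exact (pow_le_pow_iff_left₀ (norm_nonneg _) (by norm_num) two_ne_zero).1 hn

/-- The second basis vector `(0, 1, 0)`. -/
noncomputable abbrev e : E := EuclideanSpace.single 1 1

lemma frame_pos : Orthonormal ℝ ![e, EuclideanSpace.single 0 1, EuclideanSpace.single 2 1] := by
  rw [orthonormal_iff_ite]
  intro i j
  fin_cases i <;> fin_cases j <;> simp [e, PiLp.inner_apply]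

lemma frame_neg : Orthonormal ℝ ![-e, EuclideanSpace.single 0 1, EuclideanSpace.single 2 1] := by
  rw [orthonormal_iff_ite]
  intro i j
  fin_cases i <;> fin_cases j <;> simp [e, PiLp.inner_apply]

lemma N_e : N e = 2 := by
  unfold N S
  simp
  rw [show (4 : ℝ) = 2 ^ 2 by norm_num]
  exact Real.sqrt_sq (by norm_num)

lemma N_ne : N (-e) = 2 := by rw [N_neg, N_e]

lemma T_e : T e = 4 := by rw [T_eq]; simp

lemma T_ne : T (-e) = 4 := by rw [T_neg, T_e]

lemma L_e : L e = 0 := by unfold L; simp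

lemma L_ne : L (-e) = 0 := by rw [L_neg, L_e]; simp

lemma grad_e (s : ℝ) (u : E) (hs : u = s • e) (h1 : s ^ 2 = 1) (hN : N u = 2) (hT : T u = 4)
    (hL : L u = 0) (i : Fin 3) :
    (Gp u - Gq u) (EuclideanSpace.single i 1) = ((6 : ℝ) • u : E) i := by
  have g0 : (Gp u - Gq u) (EuclideanSpace.single i 1)
      = Gp u (EuclideanSpace.single i 1) - Gq u (EuclideanSpace.single i 1) := rfl
  have u0 : u 0 = 0 := by rw [hs]; simp
  have u1 : u 1 = s := by rw [hs]; simp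
  have u2 : u 2 = 0 := by rw [hs]; simp
  rw [g0, Gp_apply, Gq_apply]
  unfold p0 p1 p2 q0 q1 q2 a
  rw [hN, hT, hL, u0, u1, u2]
  fin_cases i
  · simp [u0]
  · simp [u1]
    linear_combination (-2 : ℝ) * s * h1
  · simp [u2]

lemma mem_pos : (6 : ℝ) • e ∈ hedgehog (fun x => p x - q x) := by
  refine ⟨e, _, _, frame_pos, ?_⟩
  ext i
  rw [data_sub.point_eq frame_pos]
  exact (grad_e 1 e (by simp) (by norm_num) N_e T_e L_e i).symm

lemma mem_neg : (6 : ℝ) • (-e) ∈ hedgehog (fun x => p x - q x) := by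
  refine ⟨-e, _, _, frame_neg, ?_⟩
  ext i
  rw [data_sub.point_eq frame_neg]
  exact (grad_e (-1) (-e) (by simp) (by norm_num) N_ne T_ne L_ne i).symm

lemma analytic_sphere {h : E → ℝ} (hh : ∀ x : E, x ≠ 0 → AnalyticAt ℝ h x) :
    ContMDiff (𝓡 2) 𝓘(ℝ, ℝ) ω (fun u : sphere (0 : E) 1 => h u) := by
  have : Fact (Module.finrank ℝ E = 2 + 1) := ⟨by simp⟩
  intro u
  have h1 : ContMDiffAt 𝓘(ℝ, E) 𝓘(ℝ, ℝ) ω h (u : E) :=
    (hh u (ne_zero_of_mem_unit_sphere u)).contDiffAt.contMDiffAt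
  have h2 : ContMDiffAt (𝓡 2) 𝓘(ℝ, E) ω ((↑) : sphere (0 : E) 1 → E) u :=
    contMDiff_coe_sphere u
  exact h1.comp u h2

end pair

/-- **Two noncongruent analytic hedgehogs with the same curvature function.** -/
theorem result :
    ∃ f g : E → ℝ,
      -- `f`, `g` are real-analytic on the unit sphere
      ContMDiff (𝓡 2) 𝓘(ℝ, ℝ) ω (fun u : sphere (0 : E) 1 => f u) ∧
      ContMDiff (𝓡 2) 𝓘(ℝ, ℝ) ω (fun u : sphere (0 : E) 1 => g u) ∧
      -- and so are their positively homogeneous extensions off the origin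
      ((∀ x : E, ∀ c : ℝ, 0 < c → f (c • x) = c * f x) ∧ ∀ x : E, x ≠ 0 → AnalyticAt ℝ f x) ∧
      ((∀ x : E, ∀ c : ℝ, 0 < c → g (c • x) = c * g x) ∧ ∀ x : E, x ≠ 0 → AnalyticAt ℝ g x) ∧
      -- `f`, `g` are even
      (∀ x : E, f (-x) = f x ∧ g (-x) = g x) ∧
      -- the curvature functions agree
      (∀ u v w : E, Orthonormal ℝ ![u, v, w] → R f u v w = R g u v w) ∧
      -- the surfaces are not congruent
      (∀ x ∈ hedgehog f, ∀ y ∈ hedgehog f, dist x y ≤ 11) ∧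
      (∃ x ∈ hedgehog g, ∃ y ∈ hedgehog g, dist x y = 12) ∧
      (∀ Φ : E ≃ᵢ E, Φ '' hedgehog f ≠ hedgehog g) ∧
      -- the support functions are not related by an isometry
      (∀ A : E ≃ₗᵢ[ℝ] E, ∀ b : E, ∀ ε : ℝ, ε = 1 ∨ ε = -1 →
        ∃ u ∈ sphere (0 : E) 1, g u ≠ ε * f (A u) + inner ℝ u b) := by
  have hf11 : ∀ x ∈ hedgehog (fun x => Agent.S12801.p x + Agent.S12801.q x),
      ∀ y ∈ hedgehog (fun x => Agent.S12801.p x + Agent.S12801.q x), dist x y ≤ 11 := by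
    intro x hx y hy
    have h1 := norm_le_of_mem hx
    have h2 := norm_le_of_mem hy
    have h3 := dist_le_norm_add_norm x y
    linarith
  have hg12 : ∃ x ∈ hedgehog (fun x => Agent.S12801.p x - Agent.S12801.q x),
      ∃ y ∈ hedgehog (fun x => Agent.S12801.p x - Agent.S12801.q x), dist x y = 12 := by
    refine ⟨_, mem_pos, _, mem_neg, ?_⟩
    rw [dist_eq_norm, smul_neg, sub_neg_eq_add, ← add_smul, norm_smul]
    norm_num
  refine ⟨fun x => Agent.S12801.p x + Agent.S12801.q x, fun x => Agent.S12801.p x - Agent.S12801.q x,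
    analytic_sphere (fun x hx => (Agent.S12801.an_p hx).add (Agent.S12801.an_q hx)),
    analytic_sphere (fun x hx => (Agent.S12801.an_p hx).sub (Agent.S12801.an_q hx)),
    ⟨?_, fun x hx => (Agent.S12801.an_p hx).add (Agent.S12801.an_q hx)⟩,
    ⟨?_, fun x hx => (Agent.S12801.an_p hx).sub (Agent.S12801.an_q hx)⟩, ?_,
    fun u v w ho => R_eq_R ho, hf11, hg12, ?_, ?_⟩
  · intro x c hc
    show Agent.S12801.p (c • x) + Agent.S12801.q (c • x) = _
    rw [Agent.S12801.p_smul x hc, Agent.S12801.q_smul x hc]; ring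
  · intro x c hc
    show Agent.S12801.p (c • x) - Agent.S12801.q (c • x) = _
    rw [Agent.S12801.p_smul x hc, Agent.S12801.q_smul x hc]; ring
  · intro x
    simp only [Agent.S12801.p_neg, Agent.S12801.q_neg, and_self]
  · intro Φ hΦ
    obtain ⟨x, hx, y, hy, hxy⟩ := hg12
    rw [← hΦ] at hx hy
    obtain ⟨x', hx', rfl⟩ := hx
    obtain ⟨y', hy', rfl⟩ := hy
    rw [Φ.dist_eq] at hxy
    have := hf11 x' hx' y' hy'
    linarith
  · intro A b ε hε
    by_contra hcon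
    push Not at hcon
    have h1 := hcon e (by simp)
    have h2 := hcon (-e) (by simp)
    simp only [map_neg, Agent.S12801.p_neg, Agent.S12801.q_neg, inner_neg_left] at h1 h2
    have hb := Agent.S12801.H1_bounds (w := A e) (by simp)
    have hv := Agent.S12801.H2_val
    rcases hε with rfl | rfl
    · linarith [hb.1, hb.2]
    · linarith [hb.1, hb.2]

end Pool.Agent.Results.MP_15cd64_gt.NoncongruentSurfaces
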